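import Pool.Agent.Helper56.SDD.Main

/-!
MP_823891_al, Q1 (and Q2) for definable categories over an arbitrary ring, of any cardinality:
if an interval of the lattice of pp conditions of the category contains a wide subposet inside a
sublattice that is `n`-distributive in the interval, then the category contains a
superdecomposable pure-injective module.

Idea of the proof. Let `C` be the sum of all finitely presented right modules and `Λ` its
endomorphism ring; by elementary duality the pp conditions (for left modules) correspond to the
finitely generated submodules of `C`. The countable case gives an ideal `f` of a countable wide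
sublattice without uniform elements. Take an ideal `I` of the whole interval, maximal among those
that meet the sublattice in `f`. If `x` is uniform modulo `I`, maximality gives an element `l` of
the sublattice, not in `f`, below `x` modulo `I`; below `l` there are `n + 1` elements that are
independent modulo `f`, and `n`-distributivity makes their intersection zero modulo `I`, a
contradiction. So the quotient has no uniform submodule, and its injective hull gives the
superdecomposable module. That it belongs to the category follows as `I` is closed under the
equivalence of pp conditions in the category.
-/

namespace Pool.Agent.Results.MP_823891_al.NDistributiveWidth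

open Pool.Agent.H35SD Pool.Agent.Helper56.SDD

universe u

/-- Let `X` be the definable category of the (left) `S`-modules `M` with `φ(M) ⊆ ψ(M)` for all
pairs `(φ, ψ)` of a set of pairs of pp conditions in one variable, and let `L₀` be a sublattice
of an interval `[C₀, D₀]` of `pp(X)` that contains a wide subposet. If, for some `n ≥ 1`, the
`n`-distributive law `x ∧ (y_0 + ⋯ + y_n) = ∑_i x ∧ (∑_{j ≠ i} y_j)` holds for all `x` in the
interval and all `y_0, …, y_n` in `L₀`, then `X` contains a superdecomposable pure-injective
module. -/
theorem result (S : Type u) [Ring S] (X : Set (PP S × PP S)) (C₀ D₀ : PP S)
    (L₀ : Set (PP S)) (hL : ∀ a ∈ L₀, Le X C₀ a ∧ Le X a D₀) (hsub : IsSublattice X L₀)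
    (hw : ∃ P ⊆ L₀, IsWideX X P) (n : ℕ) (hn : 1 ≤ n)
    (hdist : ∀ x : PP S, Le X C₀ x → Le X x D₀ → ∀ y : Fin (n + 1) → PP S,
      (∀ j, y j ∈ L₀) → DistribAt X n x y) :
    ∃ (N : Type u) (_ : AddCommGroup N) (_ : Module S N),
      InX X N ∧ PureInjective S N ∧ Superdecomposable S N :=
  main hn hL hsub hdist hw

end Pool.Agent.Results.MP_823891_al.NDistributiveWidth
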