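import Pool.Agent.Helper13.SDW.Final

/-!
MP_823891_al, Q1: a NEGATIVE answer. For every field `K` there are a `K`-algebra `S` and a definable
category `X` of `S`-modules such that `pp^1(X)` contains a wide subposet, i.e. `w(pp^1(X)) = ∞`, and
`X` contains no superdecomposable pure-injective module.

Idea of the proof. The modules of `X` are, up to trivial parts, `K`-spaces `B` with subspaces `W_l`,
`l` in a large set of labels; the dual space `B*` with the annihilators of the `W_l` satisfies all
implications between pp formulas which hold in a class `CC` of structures. The labels are the nodes
`C_λ` of a tree and predicates `V_τ`, one for each type `τ`. Each type is a pair of chains of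
formulas `U_0 ≥ U_1 ≥ ...` and `Z_0 ≤ Z_1 ≤ ...` with density conditions: `V_τ` is dense in `U_n` modulo
`U_{n+1}`, and in `D_{l+1}` modulo `Z_l`. The structures in `CC` are built from atoms by adding cells,
as freely as the density conditions allow. Every pp formula is equivalent in `CC` to one given by
finitely many cells (elimination of the predicates `V_τ` one by one), and the submodules generated
by `V_τ` are uniform in the following sense: a formula `W ≤ V_τ` has `W ≤ Z_l` for some `l`, or
`V_τ ∩ U_m ≤ W + Z_l` for some `m, l`. A superdecomposable pure-injective module of `X` has no uniform
submodule in this sense; starting from the root of the tree this yields an infinite descending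
chain of images of nodes, and this chain is the data of a limit type `t` of the system, whose
predicate `V_t` is uniform: a contradiction. The sums of finitely many nodes form a wide poset.
-/

namespace Pool.Agent.Results.MP_823891_al.NegativeQ1

open Pool.Agent.H35SD Pool.Agent.Helper56.NB

universe u

/-- For every field `K` there are a `K`-algebra `S` and a set `X` of pairs of pp conditions over `S`
such that the lattice `pp^1(X)` contains a wide subposet, and no module in the definable category
given by `X` is pure-injective and superdecomposable. -/
theorem result (K : Type u) [Field K] :
    ∃ (S : Type u) (_ : Ring S) (_ : Algebra K S) (X : Set (Σ m : ℕ, PPN S m × PPN S m)),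
      (∃ P : Set (PPN S 1), Cat.IsWide X P) ∧
      ∀ (N : Type u) [AddCommGroup N] [Module S N], Cat.Mem X N → PureInjective S N →
        ¬ Superdecomposable S N :=
  Pool.Agent.Helper13.SDW.final K

end Pool.Agent.Results.MP_823891_al.NegativeQ1
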