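import Pool.Agent.Helper56.NB.Main

/-!
MP_823891_al, Q1 and Q2 for the algebras which are generated by a countable set over a commutative
Noetherian ring, of any cardinality, and for the definable categories given by countably many pairs
of pp conditions: if `pp^n(X)` contains a wide subposet for some `n`, i.e. `w(pp^n(X)) = ∞`, then
the category contains a superdecomposable pure-injective module.

Idea of the proof. A countable wide poset of conditions in `n` variables gives, by projections and
restrictions, a good map of a part of it to conditions in one variable. All coefficients lie in a
countable subalgebra `S₀` with `S = C ⊗ S₀` over a countable subring `C₀` of `C`, over which `C` is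
faithfully flat, primes of `C₀` extend to primes of `C`, and the extensions of the residue fields
are existentially closed. Over the countable ring `S₀` a generic ideal of the lattice of pp
conditions gives a module `V` without uniform submodules over the endomorphism ring `Λ₀` of the sum
of all finitely presented right modules. A submodule `W` of `V` is torsion free over `C₀/p` for a
prime `p`; with `K₀ ⊆ K` the fraction fields of `C₀/p` and `C/pC` the module
`K ⊗ W` over `C ⊗ Λ₀` has no uniform submodule, by existential closedness, and the corner of its
injective hull is the module. That it belongs to the category follows from the flatness.
-/

namespace Pool.Agent.Results.MP_823891_al.NoetherianBase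

open Pool.Agent.H35SD Pool.Agent.Helper56.NB

universe u

/-- Let `C` be a commutative Noetherian ring, `S` a `C`-algebra generated by a countable set, and
`X` the definable category of the (left) `S`-modules `M` with `φ(M) ⊆ ψ(M)` for all pairs `(φ, ψ)`
of a countable set of pairs of pp conditions. If `pp^n(X)` contains a wide subposet for some `n`,
then `X` contains a superdecomposable pure-injective module. -/
theorem result (C S : Type u) [CommRing C] [IsNoetherianRing C] [Ring S] [Algebra C S]
    (hS : ∃ A : Set S, A.Countable ∧ Algebra.adjoin C A = ⊤)
    (X : Set (Σ m : ℕ, PPN S m × PPN S m)) (hX : X.Countable)
    (hw : ∃ (n : ℕ) (P : Set (PPN S n)), Cat.IsWide X P) :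
    ∃ (N : Type u) (_ : AddCommGroup N) (_ : Module S N),
      Cat.Mem X N ∧ PureInjective S N ∧ Superdecomposable S N :=
  final (C := C) hS X hX hw

end Pool.Agent.Results.MP_823891_al.NoetherianBase
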